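import Pool.Agent.Run7.h450.CE.Iface

/-!
# Project CE, piece WRD
-/

set_option autoImplicit false

namespace Run7.h733.CE

open Run7.h450.CE

theorem sum_words {N : ℕ} (A : Matrix (Fin N) (Fin N) ℕ) (n : ℕ) : ∀ u : Fin N → ℕ,
    ∑ x : Fin (n + 1) → Fin N, u (x 0) * ∏ k : Fin n, A (x k.castSucc) (x k.succ) =
      ∑ j, (Matrix.vecMul u (A ^ n)) j := by
  induction n with
  | zero =>
    intro u
    simp only [Finset.univ_eq_empty, Finset.prod_empty, mul_one, pow_zero, Matrix.vecMul_one]
    exact (Equiv.funUnique (Fin 1) (Fin N)).sum_comp (fun a => u a)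
  | succ n ih =>
    intro u
    rw [← (Fin.consEquiv (fun _ : Fin (n + 2) => Fin N)).sum_comp, Fintype.sum_prod_type_right]
    have h1 : ∀ x' : Fin (n + 1) → Fin N, ∑ a : Fin N,
        (u ((Fin.consEquiv (fun _ : Fin (n + 2) => Fin N)) (a, x') 0) *
          ∏ k : Fin (n + 1), A ((Fin.consEquiv (fun _ : Fin (n + 2) => Fin N)) (a, x') k.castSucc)
            ((Fin.consEquiv (fun _ : Fin (n + 2) => Fin N)) (a, x') k.succ)) =
        (Matrix.vecMul u A) (x' 0) * ∏ k : Fin n, A (x' k.castSucc) (x' k.succ) := by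
      intro x'
      rw [Matrix.vecMul, dotProduct, Finset.sum_mul]
      refine Finset.sum_congr rfl fun a _ => ?_
      rw [Fin.prod_univ_succ, mul_assoc]
      simp [Fin.consEquiv]
    rw [Finset.sum_congr rfl fun x' _ => h1 x', ih (Matrix.vecMul u A), Matrix.vecMul_vecMul,
      pow_succ']

theorem t_WRD : S_WRD := by
  classical
  intro N A hA n
  have h1 : ∀ x : Fin (n + 1) → Fin N,
      ∏ k : Fin n, A (x k.castSucc) (x k.succ) = if Adm A x then 1 else 0 := by
    intro x
    by_cases h : Adm A x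
    · rw [if_pos h]
      exact Finset.prod_eq_one fun k _ => h k
    · rw [if_neg h]
      unfold Adm at h
      push Not at h
      obtain ⟨k, hk⟩ := h
      exact Finset.prod_eq_zero (Finset.mem_univ k) ((hA _ _).resolve_right hk)
  have h2 := sum_words A n (fun _ => 1)
  simp only [one_mul, h1] at h2
  rw [Nat.card_eq_fintype_card, Fintype.card_subtype, Finset.card_filter, h2]
  rw [Finset.sum_comm]
  refine Finset.sum_congr rfl fun j _ => ?_
  rw [Matrix.vecMul, dotProduct]
  simp

end Run7.h733.CE
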