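import Pool.Agent.Run7.h450.CE.Iface

/-!
# Project CE, pieces GR1 and GR2
-/

set_option autoImplicit false

open Filter Topology
open scoped ENNReal NNReal

namespace Run7.h733.CE

open Run7.h450.CE

noncomputable section

attribute [local instance] Matrix.linftyOpNormedRing Matrix.linftyOpNormedAlgebra
  Matrix.linfty_opNormOneClass

/-- the sum of all entries of `A ^ n` -/
def sA {N : ℕ} (A : Matrix (Fin N) (Fin N) ℕ) (n : ℕ) : ℝ := ∑ i, ∑ j, ((A ^ n) i j : ℝ)

/-- the complex matrix -/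
def MA {N : ℕ} (A : Matrix (Fin N) (Fin N) ℕ) : Matrix (Fin N) (Fin N) ℂ :=
  A.map (fun n => (n : ℂ))

theorem MA_pow {N : ℕ} (A : Matrix (Fin N) (Fin N) ℕ) (n : ℕ) (i j : Fin N) :
    (MA A ^ n) i j = ((A ^ n) i j : ℂ) := by
  have h : MA A = (Nat.castRingHom ℂ).mapMatrix A := rfl
  rw [h, ← map_pow]
  rfl

theorem MA_norm {N : ℕ} (A : Matrix (Fin N) (Fin N) ℕ) (n : ℕ) :
    ‖MA A ^ n‖ ≤ sA A n ∧ sA A n ≤ N * ‖MA A ^ n‖ := by
  have hrow : ∀ i, (∑ j, ‖(MA A ^ n) i j‖₊ : ℝ≥0) ≤ ‖MA A ^ n‖₊ := by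
    intro i
    rw [Matrix.linfty_opNNNorm_def]
    exact Finset.le_sup (f := fun i => ∑ j, ‖(MA A ^ n) i j‖₊) (Finset.mem_univ i)
  have hent : ∀ i j, ((‖(MA A ^ n) i j‖₊ : ℝ≥0) : ℝ) = ((A ^ n) i j : ℝ) := by
    intro i j
    rw [coe_nnnorm, MA_pow]
    simp
  constructor
  · rw [← coe_nnnorm, Matrix.linfty_opNNNorm_def]
    have : ((Finset.univ : Finset (Fin N)).sup fun i => ∑ j, ‖(MA A ^ n) i j‖₊) ≤
        ∑ i, ∑ j, ‖(MA A ^ n) i j‖₊ := by
      refine Finset.sup_le fun i _ => ?_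
      exact Finset.single_le_sum (f := fun i => ∑ j, ‖(MA A ^ n) i j‖₊) (fun _ _ => zero_le)
        (Finset.mem_univ i)
    refine le_trans (NNReal.coe_le_coe.2 this) (le_of_eq ?_)
    rw [NNReal.coe_sum]
    refine Finset.sum_congr rfl fun i _ => ?_
    rw [NNReal.coe_sum]
    exact Finset.sum_congr rfl fun j _ => hent i j
  · unfold sA
    have : ∀ i ∈ (Finset.univ : Finset (Fin N)), ∑ j, ((A ^ n) i j : ℝ) ≤ ‖MA A ^ n‖ := by
      intro i _
      have h := NNReal.coe_le_coe.2 (hrow i)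
      rw [NNReal.coe_sum, coe_nnnorm] at h
      simpa only [hent] using h
    refine le_trans (Finset.sum_le_card_nsmul _ _ _ this) ?_
    simp

theorem sA_pos {N : ℕ} (A : Matrix (Fin N) (Fin N) ℕ) (hN : 0 < N) (hI : Irred A) (n : ℕ) :
    1 ≤ sA A n := by
  have hrow1 : ∀ i, ∃ j, 0 < A i j := by
    intro i
    obtain ⟨m, hm, h⟩ := hI i i
    obtain ⟨m, rfl⟩ : ∃ m', m = m' + 1 := ⟨m - 1, by omega⟩
    rw [pow_succ', Matrix.mul_apply] at h
    by_contra hcon
    push Not at hcon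
    have : ∑ j, A i j * (A ^ m) j i = 0 := Finset.sum_eq_zero fun j _ => by
      rw [Nat.le_zero.1 (hcon j), zero_mul]
    omega
  have hrow : ∀ n : ℕ, ∀ i, ∃ j, 0 < (A ^ n) i j := by
    intro n
    induction n with
    | zero => intro i; exact ⟨i, by simp⟩
    | succ n ih =>
      intro i
      obtain ⟨j, hj⟩ := hrow1 i
      obtain ⟨k, hk⟩ := ih j
      refine ⟨k, ?_⟩
      rw [pow_succ', Matrix.mul_apply]
      exact lt_of_lt_of_le (Nat.mul_pos hj hk)
        (Finset.single_le_sum (f := fun j => A i j * (A ^ n) j k) (fun _ _ => Nat.zero_le _)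
          (Finset.mem_univ j))
  obtain ⟨j, hj⟩ := hrow n ⟨0, hN⟩
  have h1 : (1 : ℝ) ≤ ((A ^ n) ⟨0, hN⟩ j : ℝ) := by exact_mod_cast hj
  refine le_trans h1 ?_
  unfold sA
  refine le_trans (Finset.single_le_sum (f := fun j => ((A ^ n) ⟨0, hN⟩ j : ℝ))
    (fun _ _ => Nat.cast_nonneg _) (Finset.mem_univ j)) ?_
  exact Finset.single_le_sum (f := fun i => ∑ j, ((A ^ n) i j : ℝ))
    (fun _ _ => Finset.sum_nonneg fun _ _ => Nat.cast_nonneg _) (Finset.mem_univ _)

/-- Gelfand, in real form -/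
theorem gelf {N : ℕ} (A : Matrix (Fin N) (Fin N) ℕ) (hN : 0 < N) (hI : Irred A) :
    0 < rA A ∧ Tendsto (fun n : ℕ => Real.log (sA A n) / n) atTop (𝓝 (Real.log (rA A))) := by
  have : Nonempty (Fin N) := ⟨⟨0, hN⟩⟩
  have hNr : (0 : ℝ) < N := by exact_mod_cast hN
  have hnorm1 : ∀ n : ℕ, (1 : ℝ) / N ≤ ‖MA A ^ n‖ := by
    intro n
    have h1 := sA_pos A hN hI n
    have h2 := (MA_norm A n).2
    rw [div_le_iff₀ hNr]
    linarith [mul_comm (N : ℝ) ‖MA A ^ n‖]
  have hnormpos : ∀ n : ℕ, 0 < ‖MA A ^ n‖ := fun n =>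
    lt_of_lt_of_le (by positivity) (hnorm1 n)
  have hfin : spectralRadius ℂ (MA A) ≠ ∞ :=
    ne_top_of_le_ne_top ENNReal.coe_ne_top (spectrum.spectralRadius_le_nnnorm (MA A))
  have hg := spectrum.pow_norm_pow_one_div_tendsto_nhds_spectralRadius (MA A)
  have hr : Tendsto (fun n : ℕ => ‖MA A ^ n‖ ^ (1 / n : ℝ)) atTop (𝓝 (rA A)) := by
    have h := (ENNReal.tendsto_toReal hfin).comp hg
    refine h.congr fun n => ?_
    simp only [Function.comp_apply]
    rw [ENNReal.toReal_ofReal (Real.rpow_nonneg (norm_nonneg _) _)]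
  -- the radius is at least one
  have hr1 : 1 ≤ rA A := by
    have hlow : Tendsto (fun n : ℕ => ((1 : ℝ) / N) ^ (1 / n : ℝ)) atTop (𝓝 1) := by
      have h0 : Tendsto (fun n : ℕ => (1 / n : ℝ)) atTop (𝓝 0) := tendsto_one_div_atTop_nhds_zero_nat
      have h1 := (Real.continuousAt_const_rpow (a := (1 : ℝ) / N) (b := 0) (by positivity)).tendsto.comp h0
      rw [Real.rpow_zero] at h1
      exact h1
    refine le_of_tendsto_of_tendsto' hlow hr fun n => ?_
    exact Real.rpow_le_rpow (by positivity) (hnorm1 n) (by positivity)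
  have hrpos : 0 < rA A := lt_of_lt_of_le one_pos hr1
  refine ⟨hrpos, ?_⟩
  have hlog : Tendsto (fun n : ℕ => Real.log ‖MA A ^ n‖ / n) atTop (𝓝 (Real.log (rA A))) := by
    have h := (Real.continuousAt_log hrpos.ne').tendsto.comp hr
    refine h.congr fun n => ?_
    simp only [Function.comp_apply]
    rw [Real.log_rpow (hnormpos n)]
    ring
  have hup : Tendsto (fun n : ℕ => Real.log N / n + Real.log ‖MA A ^ n‖ / n) atTop
      (𝓝 (Real.log (rA A))) := by
    have h0 : Tendsto (fun n : ℕ => Real.log N / (n : ℝ)) atTop (𝓝 0) :=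
      tendsto_const_div_atTop_nhds_zero_nat _
    simpa using h0.add hlog
  refine tendsto_of_tendsto_of_tendsto_of_le_of_le hlog hup ?_ ?_
  · intro n
    exact div_le_div_of_nonneg_right (Real.log_le_log (hnormpos n) (MA_norm A n).1)
      (Nat.cast_nonneg n)
  · intro n
    change Real.log (sA A n) / n ≤ Real.log N / n + Real.log ‖MA A ^ n‖ / n
    rw [← add_div, ← Real.log_mul hNr.ne' (hnormpos n).ne']
    exact div_le_div_of_nonneg_right
      (Real.log_le_log (lt_of_lt_of_le one_pos (sA_pos A hN hI n)) (MA_norm A n).2)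
      (Nat.cast_nonneg n)

theorem t_GR2 : S_GR2 := by
  intro N A hN _ hI
  have h := (gelf A hN hI).2
  have h1 : Tendsto (fun n : ℕ => (n : ℝ) / (n + 1)) atTop (𝓝 1) :=
    tendsto_natCast_div_add_atTop (1 : ℝ)
  have h2 := h.mul h1
  rw [mul_one] at h2
  refine h2.congr' ?_
  filter_upwards [eventually_gt_atTop 0] with n hn
  have hn' : (n : ℝ) ≠ 0 := by positivity
  change Real.log (sA A n) / n * (n / (n + 1)) = Real.log (sA A n) / (n + 1)
  field_simp

theorem t_GR1 : S_GR1 := by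
  intro N A hN _ hI
  refine ⟨(gelf A hN hI).1, ?_⟩
  intro v r
  have h := (gelf A hN hI).2
  set W : ℕ := (∑ j, v j) + 1 with hW
  have hWpos : (0 : ℝ) < W := by rw [hW]; positivity
  -- real bound
  have hbd : ∀ m : ℕ, ((∑ i, ((A ^ m).mulVec v) i : ℕ) : ℝ) ≤ W * sA A m := by
    intro m
    have h1 : ∀ i, ((A ^ m).mulVec v) i ≤ W * ∑ j, (A ^ m) i j := by
      intro i
      rw [Matrix.mulVec, dotProduct, Finset.mul_sum]
      refine Finset.sum_le_sum fun j _ => ?_
      rw [mul_comm]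
      refine Nat.mul_le_mul_right _ ?_
      exact le_trans (Finset.single_le_sum (f := v) (fun _ _ => Nat.zero_le _) (Finset.mem_univ j))
        (Nat.le_succ _)
    have h2 : (∑ i, ((A ^ m).mulVec v) i : ℕ) ≤ W * ∑ i, ∑ j, (A ^ m) i j := by
      rw [Finset.mul_sum]
      exact Finset.sum_le_sum fun i _ => h1 i
    have h3 : ((∑ i, ((A ^ m).mulVec v) i : ℕ) : ℝ) ≤ ((W * ∑ i, ∑ j, (A ^ m) i j : ℕ) : ℝ) := by
      exact_mod_cast h2
    refine le_trans h3 (le_of_eq ?_)
    unfold sA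
    push_cast
    ring
  have hspos : ∀ m, 0 < sA A m := fun m => lt_of_lt_of_le one_pos (sA_pos A hN hI m)
  -- real limit
  have hshift : Tendsto (fun n : ℕ => Real.log (sA A (n + r)) / ((n + r : ℕ) : ℝ)) atTop
      (𝓝 (Real.log (rA A))) := h.comp (tendsto_add_atTop_nat r)
  have hq : Tendsto (fun n : ℕ => (((n + r : ℕ) : ℝ)) / n) atTop (𝓝 1) := by
    have h0 : Tendsto (fun n : ℕ => 1 + (r : ℝ) / (n : ℝ)) atTop (𝓝 (1 + 0)) :=
      tendsto_const_nhds.add (tendsto_const_div_atTop_nhds_zero_nat _)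
    rw [add_zero] at h0
    refine h0.congr' ?_
    filter_upwards [eventually_gt_atTop 0] with n hn
    have hn' : (n : ℝ) ≠ 0 := by positivity
    push_cast
    field_simp
  have hlim : Tendsto (fun n : ℕ => Real.log (W * sA A (n + r)) / n) atTop
      (𝓝 (Real.log (rA A))) := by
    have h0 : Tendsto (fun n : ℕ => Real.log W / (n : ℝ)) atTop (𝓝 0) :=
      tendsto_const_div_atTop_nhds_zero_nat _
    have h1 := h0.add (hshift.mul hq)
    rw [mul_one, zero_add] at h1
    refine h1.congr' ?_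
    filter_upwards [eventually_gt_atTop 0] with n hn
    have hn' : (n : ℝ) ≠ 0 := by positivity
    have hn2 : ((n + r : ℕ) : ℝ) ≠ 0 := by positivity
    rw [Real.log_mul hWpos.ne' (hspos _).ne', add_div, div_mul_div_cancel₀ hn2]
  have hE : Tendsto (fun n : ℕ => ((Real.log (W * sA A (n + r)) / n : ℝ) : EReal)) atTop
      (𝓝 ((Real.log (rA A) : ℝ) : EReal)) := (continuous_coe_real_ereal.tendsto _).comp hlim
  rw [← hE.limsup_eq]
  refine limsup_le_limsup ?_ (by isBoundedDefault) (by isBoundedDefault)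
  filter_upwards [eventually_gt_atTop 0] with n hn
  have hprod : 0 < W * sA A (n + r) := mul_pos hWpos (hspos _)
  have h1 : ENNReal.log (((∑ i, ((A ^ (n + r)).mulVec v) i : ℕ)) : ENNReal) ≤
      ((Real.log (W * sA A (n + r)) : ℝ) : EReal) := by
    rw [← ENNReal.log_ofReal_of_pos hprod]
    apply ENNReal.log_le_log
    rw [← ENNReal.ofReal_natCast]
    exact ENNReal.ofReal_le_ofReal (hbd _)
  rw [EReal.coe_div]
  exact EReal.div_le_div_right_of_nonneg (by exact_mod_cast Nat.zero_le n) h1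

end

end Run7.h733.CE
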